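import Mathlib
import Pool.Agent.Helper760.OracleSim4
import Pool.Agent.H613R2.OSimD
import Pool.Agent.H613R2.OLow

set_option autoImplicit false

namespace Pool.Agent.Results.MP_d04dff_lc.OptimalLength

open Pool.Agent.Helper760.OracleC Filter

/-- The condition `y` replaces the oracle at length `n` with precision `c log n + c`: for all
strings `s` of length at most `n` the complexity of `s` given `y` and the oracle complexity of `s`
differ by at most `c log n + c`. -/
def SimAt (D : List Bool → List Bool →. List Bool) (V : List Bool →. List Bool) (c : ℝ) (n : ℕ)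
    (y : List Bool) : Prop :=
  ∀ s : List Bool, s.length ≤ n →
    |(condC D s y : ℝ) - (oracleC V s : ℝ)| ≤ c * Real.log n + c

/-- The sequence `x 1, x 2, ...` simulates the oracle with logarithmic precision. -/
def Simulates (D : List Bool → List Bool →. List Bool) (V : List Bool →. List Bool)
    (x : ℕ → List Bool) : Prop :=
  ∃ c : ℝ, ∀ n : ℕ, 1 ≤ n → SimAt D V c n (x n)

theorem size_le_sqrt (n : ℕ) : Nat.size n ≤ Nat.sqrt n + 2 := by
  have h : ∀ s : ℕ, (s + 1) * (s + 1) ≤ 2 ^ (s + 2) := by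
    intro s
    induction s with
    | zero => norm_num
    | succ s ih =>
      rcases Nat.lt_or_ge s 2 with h | h
      · interval_cases s <;> norm_num
      · have : 2 ^ (s + 1 + 2) = 2 * 2 ^ (s + 2) := by ring
        nlinarith
  rw [Nat.size_le]
  exact (Nat.lt_succ_sqrt n).trans_le (h _)

theorem tendsto_div_size (a : ℕ) (ha : 0 < a) : Tendsto (fun n : ℕ => n / (a * Nat.size n)) atTop atTop := by
  rw [tendsto_atTop]
  intro b
  filter_upwards [eventually_ge_atTop ((3 * a * b + 1) * (3 * a * b + 1))] with n hn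
  have h1 : 3 * a * b + 1 ≤ Nat.sqrt n := Nat.le_sqrt.2 hn
  have h2 := size_le_sqrt n
  have h3 : 0 < Nat.size n := Nat.size_pos.2 (by
    have : 0 < (3 * a * b + 1) * (3 * a * b + 1) := by positivity
    omega)
  rw [Nat.le_div_iff_mul_le (by positivity)]
  have h4 : Nat.size n ≤ 3 * Nat.sqrt n := by omega
  have h5 := Nat.sqrt_le n
  calc b * (a * Nat.size n) ≤ b * (a * (3 * Nat.sqrt n)) := by gcongr
    _ = (3 * a * b) * Nat.sqrt n := by ring
    _ ≤ Nat.sqrt n * Nat.sqrt n := Nat.mul_le_mul_right _ (by omega)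
    _ ≤ n := h5

/-- conditions of length `2 ^ n / n ^ b` suffice -/
theorem upper (X : ℕ → Bool) (D : List Bool → List Bool →. List Bool) (hD : OptimalCond D)
    (V : List Bool →. List Bool) (hV : OptimalIn X V) (b : ℕ) :
    ∃ x : ℕ → List Bool, Simulates D V x ∧
      ∀ n : ℕ, 1 ≤ n → ((x n).length : ℝ) ≤ 2 ^ n / (n : ℝ) ^ b := by
  classical
  obtain ⟨c, hc⟩ := Pool.Agent.H613R2.OSim.simulate2 X D hD V hV
  obtain ⟨c3, hc3⟩ := condC_triv hD
  obtain ⟨c4, hc4⟩ := oracleC_triv hV
  have hev : ∃ N0 : ℕ, ∀ n ≥ N0, 3 ≤ n ∧ (b + 4) * Nat.size n ≤ n := by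
    have h1 := (tendsto_div_size (b + 4) (by omega)).eventually_ge_atTop 1
    obtain ⟨N0, h2⟩ := (h1.and (eventually_ge_atTop 3)).exists_forall_of_atTop
    refine ⟨N0, fun n hn => ⟨(h2 n hn).2, ?_⟩⟩
    have h3 := (h2 n hn).1
    have h4 := Nat.div_mul_le_self n ((b + 4) * Nat.size n)
    nlinarith
  obtain ⟨N0, hN0⟩ := hev
  have hch : ∀ n : ℕ, ∃ x : List Bool, x.length =
      (2 * n + 4) * 2 ^ (n - (b + 4) * Nat.size n + 2) ∧
      ∀ s : List Bool, s.length ≤ n →
        condC D s x ≤ oracleC V s +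
          (4 * Nat.size n + (n - (n - (b + 4) * Nat.size n)) + c) ∧
        oracleC V s ≤ condC D s x +
          (4 * Nat.size n + (n - (n - (b + 4) * Nat.size n)) + c) :=
    fun n => hc n _ (Nat.sub_le _ _)
  choose x0 hx1 hx2 using hch
  refine ⟨fun n => if N0 ≤ n then x0 n else [], ⟨3 * (b + 8) + c + N0 + c3 + c4, ?_⟩, ?_⟩
  · intro n hn s hs
    have hlog : 0 ≤ Real.log n := Real.log_nonneg (by exact_mod_cast hn)
    have hbig : (0 : ℝ) ≤ (3 * (b + 8) + c + N0 + c3 + c4) * Real.log n :=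
      mul_nonneg (by positivity) hlog
    dsimp only
    split_ifs with hN
    · obtain ⟨h1, h2⟩ := hx2 n s hs
      have h3 : n - (n - (b + 4) * Nat.size n) ≤ (b + 4) * Nat.size n := by omega
      have h1' : condC D s (x0 n) ≤ oracleC V s + ((b + 8) * Nat.size n + c) := by
        have : (b + 8) * Nat.size n = 4 * Nat.size n + (b + 4) * Nat.size n := by ring
        omega
      have h2' : oracleC V s ≤ condC D s (x0 n) + ((b + 8) * Nat.size n + c) := by
        have : (b + 8) * Nat.size n = 4 * Nat.size n + (b + 4) * Nat.size n := by ring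
        omega
      have h1'' : (condC D s (x0 n) : ℝ) ≤ oracleC V s + ((b + 8) * Nat.size n + c) := by
        exact_mod_cast h1'
      have h2'' : (oracleC V s : ℝ) ≤ condC D s (x0 n) + ((b + 8) * Nat.size n + c) := by
        exact_mod_cast h2'
      have h4 : (Nat.size n : ℝ) ≤ 3 * Real.log n + 1 := by
        rcases Nat.lt_or_ge n 2 with h | h
        · have : n = 1 := by omega
          subst this
          simp [Nat.size_one]
        · have := size_le_log n h
          linarith
      have h5 : ((b : ℝ) + 8) * Nat.size n ≤ (b + 8) * (3 * Real.log n + 1) :=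
        mul_le_mul_of_nonneg_left h4 (by positivity)
      have h6 : ((b : ℝ) + 8) * (3 * Real.log n + 1) + c ≤
          (3 * (b + 8) + c + N0 + c3 + c4) * Real.log n + (3 * (b + 8) + c + N0 + c3 + c4) := by
        have h7 : (0 : ℝ) ≤ (c + N0 + c3 + c4) * Real.log n := mul_nonneg (by positivity) hlog
        have h8 : (0 : ℝ) ≤ b := Nat.cast_nonneg b
        have h9 : (0 : ℝ) ≤ (N0 : ℝ) + c3 + c4 := by positivity
        nlinarith
      rw [abs_le]
      constructor <;> linarith
    · have h1 := hc3 s []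
      have h2 := hc4 s
      have h3 : condC D s [] ≤ N0 + c3 := by omega
      have h4 : oracleC V s ≤ N0 + c4 := by omega
      have h3' : (condC D s [] : ℝ) ≤ N0 + c3 := by exact_mod_cast h3
      have h4' : (oracleC V s : ℝ) ≤ N0 + c4 := by exact_mod_cast h4
      have h5 : (0 : ℝ) ≤ condC D s [] := Nat.cast_nonneg _
      have h6 : (0 : ℝ) ≤ oracleC V s := Nat.cast_nonneg _
      have h7 : (0 : ℝ) ≤ 3 * ((b : ℝ) + 8) + c := by positivity
      have h8 : (0 : ℝ) ≤ c3 := Nat.cast_nonneg _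
      have h9 : (0 : ℝ) ≤ c4 := Nat.cast_nonneg _
      rw [abs_le]
      constructor <;> linarith
  · intro n hn
    dsimp only
    split_ifs with hN
    · obtain ⟨h3, h4⟩ := hN0 n hN
      have hnpos : (0 : ℝ) < (n : ℝ) ^ b := by positivity
      rw [hx1 n, le_div_iff₀ hnpos]
      have h5 : n ≤ 2 ^ Nat.size n := (Nat.lt_size_self n).le
      have h6 : n ^ (b + 4) ≤ 2 ^ ((b + 4) * Nat.size n) := by
        calc n ^ (b + 4) ≤ (2 ^ Nat.size n) ^ (b + 4) := Nat.pow_le_pow_left h5 _
          _ = 2 ^ ((b + 4) * Nat.size n) := by rw [← pow_mul]; ring_nf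
      have h7 : 2 * 4 * n + 4 * 4 ≤ n ^ 4 := by
        have : 27 * n ≤ n ^ 4 := by
          calc 27 * n = 3 ^ 3 * n := by norm_num
            _ ≤ n ^ 3 * n := Nat.mul_le_mul_right _ (Nat.pow_le_pow_left h3 3)
            _ = n ^ 4 := by ring
        omega
      have h8 : (2 * n + 4) * 2 ^ (n - (b + 4) * Nat.size n + 2) * n ^ b ≤ 2 ^ n := by
        calc (2 * n + 4) * 2 ^ (n - (b + 4) * Nat.size n + 2) * n ^ b
            = (2 * 4 * n + 4 * 4) * (2 ^ (n - (b + 4) * Nat.size n) * n ^ b) := by ring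
          _ ≤ n ^ 4 * (2 ^ (n - (b + 4) * Nat.size n) * n ^ b) := Nat.mul_le_mul_right _ h7
          _ = 2 ^ (n - (b + 4) * Nat.size n) * n ^ (b + 4) := by ring
          _ ≤ 2 ^ (n - (b + 4) * Nat.size n) * 2 ^ ((b + 4) * Nat.size n) :=
              Nat.mul_le_mul_left _ h6
          _ = 2 ^ n := by rw [← pow_add]; congr 1; omega
      exact_mod_cast h8
    · simp only [List.length_nil, Nat.cast_zero]
      positivity

/-- conditions of length `2 ^ n / n ^ (g n)` do not suffice if `g n` tends to infinity -/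
theorem lower (g : ℕ → ℝ) (hg : Tendsto g atTop atTop) :
    ∃ X : ℕ → Bool, ∀ D : List Bool → List Bool →. List Bool, OptimalCond D →
      ∀ V : List Bool →. List Bool, OptimalIn X V → ∀ c : ℝ, ∀ᶠ n : ℕ in atTop,
        ∀ y : List Bool, SimAt D V c n y → 2 ^ n / (n : ℝ) ^ (g n) < (y.length : ℝ) := by
  set φ : ℕ → ℕ := fun n => min ⌊g n / 8⌋₊ (n / (4 * Nat.size n)) with hφd
  have hφ : Tendsto φ atTop atTop := by
    have h1 : Tendsto (fun n => ⌊g n / 8⌋₊) atTop atTop :=
      tendsto_nat_floor_atTop.comp (hg.atTop_div_const (by norm_num))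
    have h2 := tendsto_div_size 4 (by norm_num)
    rw [tendsto_atTop]
    intro b
    filter_upwards [h1.eventually_ge_atTop b, h2.eventually_ge_atTop b] with n h3 h4
    exact le_min h3 h4
  have hle : ∀ n, 4 * (φ n * Nat.size n) ≤ n := by
    intro n
    have h1 : φ n ≤ n / (4 * Nat.size n) := min_le_right _ _
    calc 4 * (φ n * Nat.size n) = φ n * (4 * Nat.size n) := by ring
      _ ≤ n / (4 * Nat.size n) * (4 * Nat.size n) := Nat.mul_le_mul_right _ h1
      _ ≤ n := Nat.div_mul_le_self _ _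
  obtain ⟨X, hX⟩ := Pool.Agent.H613R2.OLow.lower φ hφ hle
  refine ⟨X, ?_⟩
  intro D hD V hV c
  filter_upwards [hX D hD V hV c, eventually_ge_atTop 2, hg.eventually_ge_atTop 8]
    with n h1 h2 h3 y hy
  have h4 := h1 y (fun s hs => by
    have := (abs_le.1 (hy s hs)).2
    linarith)
  set u := φ n * Nat.size n with hu
  have h5 : (2 : ℝ) ^ (4 * u) ≤ (n : ℝ) ^ (g n) := by
    have h6 : 2 ^ Nat.size n ≤ n ^ 2 := by
      have h7 : 1 ≤ Nat.size n := Nat.size_pos.2 (by omega)
      have h8 : 2 ^ (Nat.size n - 1) ≤ n := Nat.lt_size.1 (by omega)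
      calc 2 ^ Nat.size n = 2 ^ ((Nat.size n - 1) + 1) := by congr 1; omega
        _ = 2 * 2 ^ (Nat.size n - 1) := by ring
        _ ≤ n * n := Nat.mul_le_mul h2 h8
        _ = n ^ 2 := by ring
    have h9 : (2 : ℝ) ^ (4 * u) ≤ (n : ℝ) ^ (8 * φ n) := by
      have h10 : 2 ^ (4 * u) ≤ n ^ (8 * φ n) := by
        calc 2 ^ (4 * u) = (2 ^ Nat.size n) ^ (4 * φ n) := by rw [← pow_mul, hu]; ring_nf
          _ ≤ (n ^ 2) ^ (4 * φ n) := Nat.pow_le_pow_left h6 _
          _ = n ^ (8 * φ n) := by rw [← pow_mul]; ring_nf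
      exact_mod_cast h10
    refine h9.trans ?_
    rw [← Real.rpow_natCast]
    refine Real.rpow_le_rpow_of_exponent_le (by exact_mod_cast (by omega : 1 ≤ n)) ?_
    have h11 : φ n ≤ ⌊g n / 8⌋₊ := min_le_left _ _
    have h12 : (φ n : ℝ) ≤ g n / 8 := by
      refine le_trans (by exact_mod_cast h11) (Nat.floor_le (by linarith))
    push_cast
    linarith
  have h6 : (2 : ℝ) ^ n = 2 ^ (n - 4 * u) * 2 ^ (4 * u) := by
    rw [← pow_add]
    congr 1
    have := hle n
    omega
  have hpos : (0 : ℝ) < (n : ℝ) ^ (g n) := Real.rpow_pos_of_pos (by exact_mod_cast (by omega)) _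
  have h7 : (2 : ℝ) ^ n / (n : ℝ) ^ (g n) ≤ 2 ^ (n - 4 * u) := by
    rw [div_le_iff₀ hpos, h6]
    exact mul_le_mul_of_nonneg_left h5 (by positivity)
  refine lt_of_le_of_lt h7 ?_
  exact_mod_cast h4

/-- a fixed polynomial is eventually below `2 ^ (n / 2)` -/
theorem poly_small (q : Polynomial ℕ) :
    ∀ᶠ n : ℕ in atTop, ((q.eval n : ℕ) : ℝ) ≤ Real.exp (n / 4) := by
  set r : Polynomial ℝ := (q.map (Nat.castRingHom ℝ)).comp (Polynomial.C 4 * Polynomial.X) with hr
  have h1 := Polynomial.tendsto_div_exp_atTop r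
  have h2 : Tendsto (fun n : ℕ => (n : ℝ) / 4) atTop atTop :=
    tendsto_natCast_atTop_atTop.atTop_div_const (by norm_num)
  have h3 := (h1.comp h2).eventually (gt_mem_nhds (show (0 : ℝ) < 1 by norm_num))
  filter_upwards [h3] with n hn
  simp only [Function.comp_apply] at hn
  have h4 : r.eval ((n : ℝ) / 4) = ((q.eval n : ℕ) : ℝ) := by
    rw [hr, Polynomial.eval_comp]
    simp only [Polynomial.eval_mul, Polynomial.eval_C, Polynomial.eval_X]
    rw [show (4 : ℝ) * (n / 4) = ((n : ℕ) : ℝ) by ring]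
    rw [Polynomial.eval_natCast_map]
    simp
  rw [h4, div_lt_one (Real.exp_pos _)] at hn
  exact hn.le

/-- some oracle has no simulating sequence of polynomial length -/
theorem no_poly : ∃ X : ℕ → Bool, ∀ D : List Bool → List Bool →. List Bool, OptimalCond D →
    ∀ V : List Bool →. List Bool, OptimalIn X V → ∀ q : Polynomial ℕ,
      ¬ ∃ x : ℕ → List Bool, Simulates D V x ∧ ∀ n : ℕ, 1 ≤ n → (x n).length ≤ q.eval n := by
  set φ : ℕ → ℕ := fun n => n / (8 * Nat.size n) with hφd
  have hle : ∀ n, 8 * (φ n * Nat.size n) ≤ n := by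
    intro n
    calc 8 * (φ n * Nat.size n) = φ n * (8 * Nat.size n) := by ring
      _ ≤ n := Nat.div_mul_le_self _ _
  obtain ⟨X, hX⟩ := Pool.Agent.H613R2.OLow.lower φ (tendsto_div_size 8 (by norm_num))
    (fun n => by have := hle n; omega)
  refine ⟨X, ?_⟩
  rintro D hD V hV q ⟨x, ⟨c, hc⟩, hq⟩
  obtain ⟨n, h1, h2, h3⟩ :=
    ((hX D hD V hV c).and ((poly_small q).and (eventually_ge_atTop 1))).exists
  have h4 := h1 (x n) (fun s hs => by
    have := (abs_le.1 (hc n h3 s hs)).2
    linarith)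
  have h5 := hq n h3
  have h6 : (2 : ℝ) ^ (n - 4 * (φ n * Nat.size n)) < ((q.eval n : ℕ) : ℝ) := by
    exact_mod_cast h4.trans_le h5
  have h7 : Real.exp (n / 4) ≤ (2 : ℝ) ^ (n - 4 * (φ n * Nat.size n)) := by
    have h8 : (n : ℝ) / 2 ≤ ((n - 4 * (φ n * Nat.size n) : ℕ) : ℝ) := by
      have := hle n
      have h9 : n ≤ 2 * (n - 4 * (φ n * Nat.size n)) := by omega
      have h10 : (n : ℝ) ≤ 2 * ((n - 4 * (φ n * Nat.size n) : ℕ) : ℝ) := by exact_mod_cast h9
      linarith
    rw [← Real.exp_log (show (0 : ℝ) < (2 : ℝ) ^ (n - 4 * (φ n * Nat.size n)) by positivity)]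
    rw [Real.exp_le_exp, Real.log_pow]
    have h11 := Real.log_two_gt_d9
    have h12 : (0 : ℝ) ≤ n := Nat.cast_nonneg n
    nlinarith
  linarith

/-- The optimal length of finite conditions that simulate an oracle with logarithmic precision is
`2 ^ n / n ^ O(1)`. The first two clauses say that the optimal decompressors quantified over exist.
Third clause: for every oracle and every constant `b`, conditions of length at most
`2 ^ n / n ^ b` suffice. Fourth clause: if `g` tends to infinity, some oracle `X` is such that, for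
every precision constant `c` and all large `n`, every condition that replaces `X` at length `n` is
longer than `2 ^ n / n ^ (g n)`. Fifth clause: some oracle has no simulating sequence of
polynomial length. -/
theorem result :
    (∃ D : List Bool → List Bool →. List Bool, OptimalCond D) ∧
    (∀ X : ℕ → Bool, ∃ V : List Bool →. List Bool, OptimalIn X V) ∧
    (∀ (X : ℕ → Bool) (D : List Bool → List Bool →. List Bool), OptimalCond D →
      ∀ V : List Bool →. List Bool, OptimalIn X V → ∀ b : ℕ,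
      ∃ x : ℕ → List Bool, Simulates D V x ∧
        ∀ n : ℕ, 1 ≤ n → ((x n).length : ℝ) ≤ 2 ^ n / (n : ℝ) ^ b) ∧
    (∀ g : ℕ → ℝ, Tendsto g atTop atTop →
      ∃ X : ℕ → Bool, ∀ D : List Bool → List Bool →. List Bool, OptimalCond D →
      ∀ V : List Bool →. List Bool, OptimalIn X V → ∀ c : ℝ, ∀ᶠ n : ℕ in atTop,
        ∀ y : List Bool, SimAt D V c n y → 2 ^ n / (n : ℝ) ^ (g n) < (y.length : ℝ)) ∧
    (∃ X : ℕ → Bool, ∀ D : List Bool → List Bool →. List Bool, OptimalCond D →
      ∀ V : List Bool →. List Bool, OptimalIn X V → ∀ q : Polynomial ℕ,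
        ¬ ∃ x : ℕ → List Bool, Simulates D V x ∧ ∀ n : ℕ, 1 ≤ n → (x n).length ≤ q.eval n) :=
  ⟨exists_optimalCond, exists_optimalIn, upper, lower, no_poly⟩

end Pool.Agent.Results.MP_d04dff_lc.OptimalLength
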